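import Pool.Agent.Helper89.Hedge.A6
import Pool.Agent.Helper89.Hedge.L2
import Pool.Agent.Helper89.Hedge.O3
import Pool.Agent.Helper89.Hedge.C3

/-!
# A projective hedgehog all of whose singular points are cuspidal edges (MP_528454_gt, Q1)

There is an odd smooth function on the 2-sphere whose hedgehog has only cuspidal edges as
singularities; in particular it is a generic projective hedgehog without swallowtails.
-/

open scoped ContDiff Manifold Topology
noncomputable section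

namespace Pool.Agent.Results.MP_528454_gt.NoSwallowtail

/-- Euclidean 3-space -/
abbrev E3 := EuclideanSpace ℝ (Fin 3)

/-- The unit sphere of Euclidean 3-space -/
abbrev S2 := Metric.sphere (0 : E3) 1

/-- the point `v / ‖v‖` of the unit sphere, for `v ≠ 0` -/
def toSphere (v : E3) (hv : v ≠ 0) : S2 :=
  ⟨‖v‖⁻¹ • v, by
    rw [mem_sphere_zero_iff_norm, norm_smul, norm_inv, norm_norm,
      inv_mul_cancel₀ (norm_ne_zero_iff.mpr hv)]⟩

open Classical in
/-- The extension of `h` to `ℝ³ ∖ {0}` that is constant on rays. Its gradient at a point `u` of the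
sphere is tangent to the sphere: it is the gradient `∇h(u) ∈ u^⊥` of `h` on the sphere. -/
def radialExt (h : S2 → ℝ) (v : E3) : ℝ := if hv : v ≠ 0 then h (toSphere v hv) else 0

/-- The parametrisation `x_h(u) = h(u) u + ∇h(u)` of the hedgehog with support function `h`. -/
def hedgehog (h : S2 → ℝ) (u : S2) : E3 := h u • (u : E3) + gradient (radialExt h) (u : E3)

/-- `h` is of class `C^∞` on the sphere (with the usual manifold structure of Mathlib). -/
def IsSmooth (h : S2 → ℝ) : Prop := ContMDiff (𝓡 2) 𝓘(ℝ, ℝ) ∞ h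

/-- Linear maps from the tangent plane of the sphere (a copy of `ℝ²` in Mathlib) to 3-space. -/
abbrev Lin := EuclideanSpace ℝ (Fin 2) →L[ℝ] E3

/-- `L` is the differential of `F` at `u`. -/
def IsDifferential (F : S2 → E3) (u : S2) (L : Lin) : Prop := HasMFDerivAt (𝓡 2) 𝓘(ℝ, E3) F u L

/-- `F` is an immersion at `u`: it is differentiable at `u` and its differential is injective. -/
def IsImmersedAt (F : S2 → E3) (u : S2) : Prop :=
  ∃ L : Lin, IsDifferential F u L ∧ Function.Injective L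

/-- `φ` is a local diffeomorphism (of class `C^∞`) of the plane to the sphere at `(0, 0)`. -/
def IsSourceDiffeo (φ : ℝ × ℝ → S2) : Prop :=
  IsLocalDiffeomorphAt 𝓘(ℝ, ℝ × ℝ) (𝓡 2) ∞ φ (0, 0)

/-- `Ψ` is a local diffeomorphism (of class `C^∞`) of 3-space at `y`. -/
def IsTargetDiffeo (Ψ : E3 → ℝ × ℝ × ℝ) (y : E3) : Prop :=
  IsLocalDiffeomorphAt 𝓘(ℝ, E3) 𝓘(ℝ, ℝ × ℝ × ℝ) ∞ Ψ y

/-- The germ of `F` at `u` is a cuspidal edge: it is equivalent, under diffeomorphisms of source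
and target, to the germ of `(s, t) ↦ (s, t², t³)` at the origin. -/
def IsCuspidalEdgeAt (F : S2 → E3) (u : S2) : Prop :=
  ∃ (φ : ℝ × ℝ → S2) (Ψ : E3 → ℝ × ℝ × ℝ),
    IsSourceDiffeo φ ∧ φ (0, 0) = u ∧ IsTargetDiffeo Ψ (F u) ∧
    ∀ᶠ p in 𝓝 ((0, 0) : ℝ × ℝ), Ψ (F (φ p)) = (p.1, p.2 ^ 2, p.2 ^ 3)

theorem hedgehog_eq : hedgehog = Helper89.Hedge.hedgehog := rfl

theorem isCuspidalEdgeAt_of {F : S2 → E3} {u : S2} (h : Helper89.Hedge.IsCuspidalEdgeAt F u) :
    IsCuspidalEdgeAt F u := by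
  obtain ⟨φ, Ψ, h1, h2, h3, h4⟩ := h
  refine ⟨φ, Ψ, φ.isLocalDiffeomorphAt _ _ _ h1, h2, Ψ.isLocalDiffeomorphAt _ _ _ h3, ?_⟩
  filter_upwards [h4] with p hp
  exact hp.2

theorem isImmersedAt_of {F : S2 → E3} {u : S2}
    (h : Function.Injective (mfderiv (𝓡 2) 𝓘(ℝ, E3) F u)) : IsImmersedAt F u := by
  have hd : MDifferentiableAt (𝓡 2) 𝓘(ℝ, E3) F u := by
    by_contra hcon
    rw [mfderiv_zero_of_not_mdifferentiableAt hcon] at h
    have h1 : (EuclideanSpace.single 0 1 : EuclideanSpace ℝ (Fin 2)) = 0 := h rfl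
    have h2 := congrArg (fun v : EuclideanSpace ℝ (Fin 2) => v 0) h1
    simp at h2
  exact ⟨mfderiv (𝓡 2) 𝓘(ℝ, E3) F u, hd.hasMFDerivAt, h⟩

/-- There is an odd function `h` of class `C^∞` on the sphere such that, at every point `u` at which
`x_h` is not an immersion, the germ of `x_h` is a cuspidal edge. -/
theorem result : ∃ h : S2 → ℝ, IsSmooth h ∧ (∀ u, h (-u) = -h u) ∧
    ∀ u, ¬ IsImmersedAt (hedgehog h) u → IsCuspidalEdgeAt (hedgehog h) u := by
  obtain ⟨ψ, w, ε₀, b₀, n₀, K, κ₀, hd⟩ := Helper89.Hedge.exists_leafData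
  obtain ⟨F0, δ, s₀, hδ, hδ5, hs, hF, hFg, h2, h3, h4⟩ := Helper89.Hedge.leaf hd
  obtain ⟨f, c, hc, hf, hfg, hfar, hgood⟩ := Helper89.Hedge.oscillation F0 ψ hF hd.smooth_psi hFg
    hd.glide_psi δ s₀ hδ hs (fun x hx => by have := hd.far x hx; linarith) h2 h3 h4
  obtain ⟨h, h5, h6, h7⟩ := Helper89.Hedge.chart_to_sphere f c hc hf hfg hfar hgood
  refine ⟨h, h5, h6, fun u hu => isCuspidalEdgeAt_of (h7 u fun hinj => hu ?_)⟩
  exact isImmersedAt_of hinj

end Pool.Agent.Results.MP_528454_gt.NoSwallowtail
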